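import Pool.Agent.W2helper21.RK.Struct

/-!
# Windows restricted to a regular set of variables are functionals of one chain
-/

namespace Pool.Agent.W2helper21.RK

open Matrix Pool.Agent.W2helper94.PIT Pool.Agent.W2helper21.FRO
open scoped Kronecker

variable {F : Type*} [Field F] {m : Type} [Fintype m] [DecidableEq m]

/-- the entries of `W` are functionals of a chain of length `L` and size `c` whose ranks are
maximal at `a` -/
def Rp (L : ℕ) (a : ℕ → F) (c : ℕ) (W : (ℕ → F) → Matrix m m F) : Prop :=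
  ∃ (ν : Type) (_ : Fintype ν) (_ : DecidableEq ν) (C : ℕ → F → Matrix ν ν F),
    Fintype.card ν = c ∧ (∀ l, ∀ a b, ∃ p : Polynomial F, ∀ t, p.eval t = C l t a b) ∧
    (∀ i j, i < j → j ≤ L → ∀ x, (cp C x i j).rank ≤ (cp C a i j).rank) ∧
    ∀ α β, ∃ y w : ν → F, ∀ ξ, W ξ α β = y ⬝ᵥ (cp C ξ 0 L *ᵥ w)

section Leaf

variable {M : ℕ → F → Matrix m m F} {v e : ℕ → ℕ} {L : ℕ} {z : ℕ → F}
  {pt : (ℕ → F) → ℕ → F}

/-- one segment -/
def sg (M : ℕ → F → Matrix m m F) (v e : ℕ → ℕ) (z : ℕ → F) (l p q : ℕ) (s : F) :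
    Matrix m m F := cp M (fun r => if v r = e l then s else z (v r)) p q

theorem sg_poly (hM : ∀ l, ∀ a b, ∃ p : Polynomial F, ∀ t, p.eval t = M l t a b) (l p q : ℕ)
    (a b : m) : ∃ r : Polynomial F, ∀ s, r.eval s = sg M v e z l p q s a b := by
  apply unit_poly
  have := cp_MPF (ι := Unit) (g := fun x r => if v r = e l then x () else z (v r))
    hM (fun r => by
      by_cases hr : v r = e l
      · simp only [hr, if_true]
        exact IsPF.coord _
      · simp only [hr, if_false]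
        exact IsPF.const _) p q
  exact this a b

theorem sg_eq (hpt1 : ∀ ξ, ∀ l < L, pt ξ (e l) = ξ l)
    (hpt2 : ∀ ξ u, (∀ l < L, e l ≠ u) → pt ξ u = z u) {l p q : ℕ} (hl : l < L)
    (hseg : ∀ r, p ≤ r → r < q → ∀ l' < L, v r = e l' → l' = l) (ξ : ℕ → F) :
    sg M v e z l p q (ξ l) = cp M (fun r => pt ξ (v r)) p q := by
  unfold sg
  apply cp_congr
  intro r h1 h2
  by_cases hr : v r = e l
  · rw [if_pos hr, hr, hpt1 ξ l hl]
  · rw [if_neg hr]
    symm
    apply hpt2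
    intro l' hl' h
    apply hr
    rw [← h]
    congr 1
    exact (hseg r h1 h2 l' hl' h.symm)

theorem dot_single (A : Matrix m m F) (α β : m) :
    A α β = (Pi.single α (1 : F) : m → F) ⬝ᵥ (A *ᵥ (Pi.single β (1 : F) : m → F)) := by
  simp

theorem rp_inc (hM : ∀ l, ∀ a b, ∃ p : Polynomial F, ∀ t, p.eval t = M l t a b)
    (hpt1 : ∀ ξ, ∀ l < L, pt ξ (e l) = ξ l)
    (hpt2 : ∀ ξ u, (∀ l < L, e l ≠ u) → pt ξ u = z u) {i j : ℕ} (c : ℕ → ℕ) (hc0 : c 0 = i)
    (hcL : c L = j) (hmono : ∀ l < L, c l ≤ c (l + 1))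
    (hseg : ∀ l < L, ∀ r, c l ≤ r → r < c (l + 1) → ∀ l' < L, v r = e l' → l' = l)
    {a : ℕ → F} (hrank : ∀ p q, i ≤ p → p < q → q ≤ j → ∀ x : ℕ → F,
      (cp M (fun r => x (v r)) p q).rank ≤ (cp M (fun r => pt a (v r)) p q).rank) :
    Rp L a (Fintype.card m) (fun ξ => cp M (fun r => pt ξ (v r)) i j) := by
  have hcm : ∀ l l', l ≤ l' → l' ≤ L → c l ≤ c l' := by
    intro l l' hll
    induction l', hll using Nat.le_induction with
    | base => exact fun _ => le_rfl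
    | succ l' hll ih => exact fun h => (ih (by omega)).trans (hmono l' (by omega))
  let C : ℕ → F → Matrix m m F := fun l s => sg M v e z l (c l) (c (l + 1)) s
  have key : ∀ ξ i0 j0, i0 ≤ j0 → j0 ≤ L →
      cp C ξ i0 j0 = cp M (fun r => pt ξ (v r)) (c i0) (c j0) := by
    intro ξ i0 j0 hij
    induction j0, hij using Nat.le_induction with
    | base =>
      intro _
      rw [cp_self _ le_rfl, cp_self _ le_rfl]
    | succ j0 hij ih =>
      intro hj
      rw [cp_succ _ _ hij, ih (by omega),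
        ← cp_mul _ (hcm i0 j0 hij (by omega)) (hmono j0 (by omega))]
      congr 1
      exact sg_eq hpt1 hpt2 (by omega) (hseg j0 (by omega)) ξ
  refine ⟨m, inferInstance, inferInstance, C, rfl, fun l => sg_poly hM l _ _, ?_, ?_⟩
  · intro i0 j0 hij hj x
    rw [key x i0 j0 hij.le hj, key a i0 j0 hij.le hj]
    rcases Nat.lt_or_eq_of_le (hcm i0 j0 hij.le hj) with h | h
    · apply hrank _ _ _ h
      · rw [← hcL]
        exact hcm _ _ hj le_rfl
      · rw [← hc0]
        exact hcm _ _ (Nat.zero_le _) (by omega)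
    · rw [h, cp_self _ le_rfl, cp_self _ le_rfl]
  · intro α β
    refine ⟨Pi.single α 1, Pi.single β 1, fun ξ => ?_⟩
    rw [key ξ 0 L (Nat.zero_le L) le_rfl, hc0, hcL]
    exact dot_single _ α β

theorem rp_dec (hM : ∀ l, ∀ a b, ∃ p : Polynomial F, ∀ t, p.eval t = M l t a b)
    (hpt1 : ∀ ξ, ∀ l < L, pt ξ (e l) = ξ l)
    (hpt2 : ∀ ξ u, (∀ l < L, e l ≠ u) → pt ξ u = z u) {i j : ℕ} (c : ℕ → ℕ) (hc0 : c 0 = j)
    (hcL : c L = i) (hmono : ∀ l < L, c (l + 1) ≤ c l)
    (hseg : ∀ l < L, ∀ r, c (l + 1) ≤ r → r < c l → ∀ l' < L, v r = e l' → l' = l)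
    {a : ℕ → F} (hrank : ∀ p q, i ≤ p → p < q → q ≤ j → ∀ x : ℕ → F,
      (cp M (fun r => x (v r)) p q).rank ≤ (cp M (fun r => pt a (v r)) p q).rank) :
    Rp L a (Fintype.card m) (fun ξ => cp M (fun r => pt ξ (v r)) i j) := by
  have hcm : ∀ l l', l ≤ l' → l' ≤ L → c l' ≤ c l := by
    intro l l' hll
    induction l', hll using Nat.le_induction with
    | base => exact fun _ => le_rfl
    | succ l' hll ih => exact fun h => (hmono l' (by omega)).trans (ih (by omega))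
  let C : ℕ → F → Matrix m m F := fun l s => (sg M v e z l (c (l + 1)) (c l) s)ᵀ
  have key : ∀ ξ i0 j0, i0 ≤ j0 → j0 ≤ L →
      cp C ξ i0 j0 = (cp M (fun r => pt ξ (v r)) (c j0) (c i0))ᵀ := by
    intro ξ i0 j0 hij
    induction j0, hij using Nat.le_induction with
    | base =>
      intro _
      rw [cp_self _ le_rfl, cp_self _ le_rfl, Matrix.transpose_one]
    | succ j0 hij ih =>
      intro hj
      rw [cp_succ _ _ hij, ih (by omega),
        ← cp_mul _ (hmono j0 (by omega)) (hcm i0 j0 hij (by omega)), Matrix.transpose_mul]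
      congr 1
      show (sg M v e z j0 (c (j0 + 1)) (c j0) (ξ j0))ᵀ = _
      rw [sg_eq hpt1 hpt2 (by omega) (hseg j0 (by omega)) ξ]
  refine ⟨m, inferInstance, inferInstance, C, rfl, fun l a b => sg_poly hM l _ _ b a, ?_, ?_⟩
  · intro i0 j0 hij hj x
    rw [key x i0 j0 hij.le hj, key a i0 j0 hij.le hj, Matrix.rank_transpose,
      Matrix.rank_transpose]
    rcases Nat.lt_or_eq_of_le (hcm i0 j0 hij.le hj) with h | h
    · apply hrank _ _ _ h
      · rw [← hc0]
        exact hcm _ _ (Nat.zero_le _) (by omega)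
      · rw [← hcL]
        exact hcm _ _ hj le_rfl
    · rw [h, cp_self _ le_rfl, cp_self _ le_rfl]
  · intro α β
    refine ⟨Pi.single β 1, Pi.single α 1, fun ξ => ?_⟩
    rw [key ξ 0 L (Nat.zero_le L) le_rfl, hc0, hcL]
    rw [← dot_single, Matrix.transpose_apply]

end Leaf

section Cuts

variable {v e : ℕ → ℕ} {L : ℕ}

/-- cuts of an increasing window -/
theorem exists_cuts_inc {i j : ℕ} (hij : i ≤ j) (hL : 0 < L)
    (h : ∀ l l', l < l' → l' < L → ∀ q q', i ≤ q → q < j → i ≤ q' → q' < j → v q = e l →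
      v q' = e l' → q < q') :
    ∃ c : ℕ → ℕ, c 0 = i ∧ c L = j ∧ (∀ l < L, c l ≤ c (l + 1)) ∧
      ∀ l < L, ∀ r, c l ≤ r → r < c (l + 1) → ∀ l' < L, v r = e l' → l' = l := by
  classical
  let Q : ℕ → Set ℕ := fun l =>
    {q | i ≤ q ∧ (q = j ∨ (q < j ∧ ∃ l', l ≤ l' ∧ l' < L ∧ v q = e l'))}
  have hjQ : ∀ l, j ∈ Q l := fun l => ⟨hij, Or.inl rfl⟩
  have hmem : ∀ l, sInf (Q l) ∈ Q l := fun l => Nat.sInf_mem ⟨j, hjQ l⟩
  have hle : ∀ l, sInf (Q l) ≤ j := fun l => Nat.sInf_le (hjQ l)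
  have hge : ∀ l, i ≤ sInf (Q l) := fun l => (hmem l).1
  have hmono : ∀ l, sInf (Q l) ≤ sInf (Q (l + 1)) := by
    intro l
    apply Nat.sInf_le
    obtain ⟨h1, h2⟩ := hmem (l + 1)
    refine ⟨h1, ?_⟩
    rcases h2 with h2 | ⟨h2, l', h3, h4⟩
    · exact Or.inl h2
    · exact Or.inr ⟨h2, l', by omega, h4⟩
  have hQL : sInf (Q L) = j := by
    rcases (hmem L).2 with h2 | ⟨_, l', h3, h4, _⟩
    · exact h2
    · omega
  refine ⟨fun l => if l = 0 then i else sInf (Q l), if_pos rfl, ?_, ?_, ?_⟩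
  · simp only [if_neg hL.ne']
    exact hQL
  · intro l _
    by_cases hl : l = 0
    · simp only [hl, if_true, Nat.zero_add, one_ne_zero, if_false]
      exact hge 1
    · simp only [if_neg hl, if_neg (Nat.succ_ne_zero l)]
      exact hmono l
  · intro l hl r h1 h2 l' hl' hr
    simp only [if_neg (Nat.succ_ne_zero l)] at h2
    have hrj : r < j := lt_of_lt_of_le h2 (hle _)
    have hir : i ≤ r := by
      by_cases hl0 : l = 0
      · simpa [hl0] using h1
      · simp only [if_neg hl0] at h1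
        exact (hge l).trans h1
    have hup : l' ≤ l := by
      by_contra hcon
      have h3 : r ∈ Q (l + 1) := ⟨hir, Or.inr ⟨hrj, l', by omega, hl', hr⟩⟩
      have := Nat.sInf_le h3
      omega
    rcases Nat.lt_or_eq_of_le hup with h3 | h3
    · exfalso
      have hl0 : l ≠ 0 := by omega
      simp only [if_neg hl0] at h1
      rcases (hmem l).2 with h4 | ⟨h4, l'', h5, h6, h7⟩
      · omega
      · have := h l' l'' (by omega) h6 r (sInf (Q l)) hir hrj (hge l) h4 hr h7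
        omega
    · exact h3

/-- cuts of a decreasing window -/
theorem exists_cuts_dec {i j : ℕ} (hij : i ≤ j) (hL : 0 < L)
    (h : ∀ l l', l < l' → l' < L → ∀ q q', i ≤ q → q < j → i ≤ q' → q' < j → v q = e l →
      v q' = e l' → q' < q) :
    ∃ c : ℕ → ℕ, c 0 = j ∧ c L = i ∧ (∀ l < L, c (l + 1) ≤ c l) ∧
      ∀ l < L, ∀ r, c (l + 1) ≤ r → r < c l → ∀ l' < L, v r = e l' → l' = l := by
  classical
  let Q : ℕ → Set ℕ := fun l =>
    {q | i ≤ q ∧ ∀ q', q ≤ q' → q' < j → ∀ l', l ≤ l' → l' < L → v q' ≠ e l'}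
  have hjQ : ∀ l, j ∈ Q l := fun l => ⟨hij, fun q' h1 h2 => by omega⟩
  have hmem : ∀ l, sInf (Q l) ∈ Q l := fun l => Nat.sInf_mem ⟨j, hjQ l⟩
  have hle : ∀ l, sInf (Q l) ≤ j := fun l => Nat.sInf_le (hjQ l)
  have hge : ∀ l, i ≤ sInf (Q l) := fun l => (hmem l).1
  have hmono : ∀ l, sInf (Q (l + 1)) ≤ sInf (Q l) := by
    intro l
    apply Nat.sInf_le
    obtain ⟨h1, h2⟩ := hmem l
    exact ⟨h1, fun q' h3 h4 l' h5 h6 => h2 q' h3 h4 l' (by omega) h6⟩
  have hQL : sInf (Q L) = i := by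
    have h1 : i ∈ Q L := ⟨le_rfl, fun q' _ _ l' h3 h4 => by omega⟩
    have h2 := Nat.sInf_le h1
    have h3 := hge L
    omega
  refine ⟨fun l => if l = 0 then j else sInf (Q l), if_pos rfl, ?_, ?_, ?_⟩
  · simp only [if_neg hL.ne']
    exact hQL
  · intro l _
    by_cases hl : l = 0
    · simp only [hl, if_true, Nat.zero_add, one_ne_zero, if_false]
      exact hle 1
    · simp only [if_neg hl, if_neg (Nat.succ_ne_zero l)]
      exact hmono l
  · intro l hl r h1 h2 l' hl' hr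
    simp only [if_neg (Nat.succ_ne_zero l)] at h1
    have hir : i ≤ r := (hge _).trans h1
    have hrj : r < j := by
      by_cases hl0 : l = 0
      · simpa [hl0] using h2
      · simp only [if_neg hl0] at h2
        exact lt_of_lt_of_le h2 (hle l)
    have hup : l' ≤ l := by
      by_contra hcon
      exact (hmem (l + 1)).2 r h1 hrj l' (by omega) hl' hr
    rcases Nat.lt_or_eq_of_le hup with h3 | h3
    · exfalso
      have hl0 : l ≠ 0 := by omega
      simp only [if_neg hl0] at h2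
      have h4 : ¬ (sInf (Q l) - 1) ∈ Q l := fun h5 => by
        have := Nat.sInf_le h5
        omega
      have h5 : i ≤ sInf (Q l) - 1 := by omega
      have h6 : ∃ q', sInf (Q l) - 1 ≤ q' ∧ q' < j ∧ ∃ l', l ≤ l' ∧ l' < L ∧ v q' = e l' := by
        by_contra hcon
        push Not at hcon
        exact h4 ⟨h5, fun q' h7 h8 l' h9 h10 => hcon q' h7 h8 l' h9 h10⟩
      obtain ⟨q', h7, h8, l'', h9, h10, h11⟩ := h6
      have h12 : q' < sInf (Q l) := by
        by_contra hcon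
        exact (hmem l).2 q' (by omega) h8 l'' h9 h10 h11
      have := h l' l'' (by omega) h10 r q' hir hrj (by omega) h8 hr h11
      omega
    · exact h3

end Cuts

section Node

theorem cp_kron {ν ν' : Type} [Fintype ν] [DecidableEq ν] [Fintype ν'] [DecidableEq ν']
    (C : ℕ → F → Matrix ν ν F) (D : ℕ → F → Matrix ν' ν' F) (x : ℕ → F) (i j : ℕ) :
    cp (fun l s => C l s ⊗ₖ D l s) x i j = cp C x i j ⊗ₖ cp D x i j := by
  unfold cp
  induction List.Ico i j with
  | nil =>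
    simp only [List.map_nil, List.prod_nil]
    exact Matrix.one_kronecker_one.symm
  | cons l A ih =>
    simp only [List.map_cons, List.prod_cons, ih]
    exact (Matrix.mul_kronecker_mul _ _ _ _).symm

theorem rank_kron_le {ν ν' : Type} [Fintype ν] [DecidableEq ν] [Fintype ν'] [DecidableEq ν']
    {A A' : Matrix ν ν F} {B B' : Matrix ν' ν' F} (h1 : A.rank ≤ A'.rank)
    (h2 : B.rank ≤ B'.rank) : (A ⊗ₖ B).rank ≤ (A' ⊗ₖ B').rank := by
  obtain ⟨X, Y, hXY⟩ := factor_of_rank_le h1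
  obtain ⟨X', Y', hXY'⟩ := factor_of_rank_le h2
  have : A ⊗ₖ B = (X ⊗ₖ X') * (A' ⊗ₖ B') * (Y ⊗ₖ Y') := by
    rw [← Matrix.mul_kronecker_mul, ← Matrix.mul_kronecker_mul, ← hXY, ← hXY']
  rw [this]
  exact (Matrix.rank_mul_le_left _ _).trans (Matrix.rank_mul_le_right _ _)

theorem dot_kron {ν ν' : Type} [Fintype ν] [DecidableEq ν] [Fintype ν'] [DecidableEq ν']
    (A : Matrix ν ν F) (B : Matrix ν' ν' F) (y w : ν → F) (y' w' : ν' → F) :
    (y ⬝ᵥ (A *ᵥ w)) * (y' ⬝ᵥ (B *ᵥ w')) =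
      (fun q : ν × ν' => y q.1 * y' q.2) ⬝ᵥ ((A ⊗ₖ B) *ᵥ fun q : ν × ν' => w q.1 * w' q.2) := by
  have h1 : ((A ⊗ₖ B) *ᵥ fun q : ν × ν' => w q.1 * w' q.2) =
      fun q : ν × ν' => (A *ᵥ w) q.1 * (B *ᵥ w') q.2 := by
    funext q
    simp only [Matrix.mulVec, dotProduct, Matrix.kroneckerMap_apply]
    rw [Fintype.sum_prod_type, Finset.sum_mul_sum]
    refine Finset.sum_congr rfl fun a _ => Finset.sum_congr rfl fun b _ => by ring
  rw [h1]
  simp only [dotProduct]
  rw [Fintype.sum_prod_type, Finset.sum_mul_sum]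
  refine Finset.sum_congr rfl fun a _ => Finset.sum_congr rfl fun b _ => by ring

theorem dot_block {ν ι : Type} [Fintype ν] [DecidableEq ν] [Fintype ι] [DecidableEq ι]
    (A : Matrix ν ν F) (y w : ι → ν → F) :
    ∑ e, y e ⬝ᵥ (A *ᵥ w e) = (fun q : ν × ι => y q.2 q.1) ⬝ᵥ
      ((blockDiagonal fun _ : ι => A) *ᵥ fun q : ν × ι => w q.2 q.1) := by
  have h1 : ∀ t : ν × ι, ((blockDiagonal fun _ : ι => A) *ᵥ fun q : ν × ι => w q.2 q.1) t =
      (A *ᵥ w t.2) t.1 := by
    rintro ⟨t1, t2⟩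
    simp only [Matrix.mulVec, dotProduct, Matrix.blockDiagonal_apply]
    rw [Fintype.sum_prod_type]
    refine Finset.sum_congr rfl fun c _ => ?_
    rw [Finset.sum_eq_single t2]
    · simp
    · intro b _ hb
      simp [Ne.symm hb]
    · simp
  simp only [dotProduct, h1]
  rw [Fintype.sum_prod_type, Finset.sum_comm]

/-- products -/
theorem Rp.mul {L : ℕ} {a : ℕ → F} {c c' : ℕ} {W W' : (ℕ → F) → Matrix m m F}
    (h : Rp L a c W) (h' : Rp L a c' W') :
    Rp L a (c * c' * Fintype.card m) (fun ξ => W ξ * W' ξ) := by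
  obtain ⟨ν, hν1, hν2, C, hc, hpoly, hrank, hf⟩ := h
  obtain ⟨ν', hν1', hν2', C', hc', hpoly', hrank', hf'⟩ := h'
  refine ⟨(ν × ν') × m, inferInstance, inferInstance,
    blk (fun _ : m => fun l s => C l s ⊗ₖ C' l s), ?_, ?_, ?_, ?_⟩
  · rw [Fintype.card_prod, Fintype.card_prod, hc, hc']
  · apply blk_poly
    intro _ l a b
    obtain ⟨p, hp⟩ := hpoly l a.1 b.1
    obtain ⟨p', hp'⟩ := hpoly' l a.2 b.2
    exact ⟨p * p', fun s => by rw [Polynomial.eval_mul, hp, hp', Matrix.kroneckerMap_apply]⟩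
  · intro i j hij hj x
    rw [cp_blk, cp_blk]
    apply rank_block_le
    intro _
    rw [cp_kron, cp_kron]
    exact rank_kron_le (hrank i j hij hj x) (hrank' i j hij hj x)
  · intro α β
    choose y w hyw using hf α
    choose y' w' hyw' using fun γ => hf' γ β
    refine ⟨fun q => y q.2 q.1.1 * y' q.2 q.1.2, fun q => w q.2 q.1.1 * w' q.2 q.1.2,
      fun ξ => ?_⟩
    show (W ξ * W' ξ) α β = _
    rw [cp_blk, Matrix.mul_apply]
    simp only [hyw, hyw', dot_kron, cp_kron]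
    exact dot_block _ (fun e (q : ν × ν') => y e q.1 * y' e q.2)
      (fun e (q : ν × ν') => w e q.1 * w' e q.2)

/-- all functionals, on a standard index set -/
theorem Rp.func {L : ℕ} {a : ℕ → F} {c : ℕ} {W : (ℕ → F) → Matrix m m F} (h : Rp L a c W)
    (Y V : m → F) : ∃ C : ℕ → F → Matrix (Fin (c * (Fintype.card m * Fintype.card m)))
      (Fin (c * (Fintype.card m * Fintype.card m))) F,
      (∀ l, ∀ a b, ∃ p : Polynomial F, ∀ t, p.eval t = C l t a b) ∧
      (∀ i j, i < j → j ≤ L → ∀ x, (cp C x i j).rank ≤ (cp C a i j).rank) ∧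
      ∃ y w, ∀ ξ, Y ⬝ᵥ (W ξ *ᵥ V) = y ⬝ᵥ (cp C ξ 0 L *ᵥ w) := by
  obtain ⟨ν, hν1, hν2, C, hc, hpoly, hrank, hf⟩ := h
  choose y w hyw using hf
  let D : ℕ → F → Matrix (ν × (m × m)) (ν × (m × m)) F := blk (fun _ : m × m => C)
  have hcard : Fintype.card (ν × (m × m)) = c * (Fintype.card m * Fintype.card m) := by
    rw [Fintype.card_prod, Fintype.card_prod, hc]
  let φ : ν × (m × m) ≃ Fin (c * (Fintype.card m * Fintype.card m)) :=
    Fintype.equivFinOfCardEq hcard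
  let E : ℕ → F → Matrix (Fin (c * (Fintype.card m * Fintype.card m)))
      (Fin (c * (Fintype.card m * Fintype.card m))) F := fun l s => (D l s).submatrix φ.symm φ.symm
  have hcp : ∀ x i j, cp E x i j = (cp D x i j).submatrix φ.symm φ.symm := by
    intro x i j
    unfold cp
    induction List.Ico i j with
    | nil =>
      simp only [List.map_nil, List.prod_nil]
      exact (Matrix.submatrix_one_equiv _).symm
    | cons l A ih =>
      simp only [List.map_cons, List.prod_cons, ih]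
      exact Matrix.submatrix_mul_equiv _ _ _ _ _
  refine ⟨E, ?_, ?_, fun q => Y (φ.symm q).2.1 * V (φ.symm q).2.2 *
    y (φ.symm q).2.1 (φ.symm q).2.2 (φ.symm q).1, fun q =>
    w (φ.symm q).2.1 (φ.symm q).2.2 (φ.symm q).1, ?_⟩
  · intro l a b
    exact blk_poly (fun _ : m × m => hpoly) l (φ.symm a) (φ.symm b)
  · intro i j hij hj x
    rw [hcp, hcp, Matrix.rank_submatrix, Matrix.rank_submatrix]
    rw [cp_blk, cp_blk]
    exact rank_block_le fun _ => hrank i j hij hj x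
  · intro ξ
    rw [hcp]
    have h1 : Y ⬝ᵥ (W ξ *ᵥ V) = ∑ t : m × m, (fun k => Y t.1 * V t.2 * y t.1 t.2 k) ⬝ᵥ
        (cp C ξ 0 L *ᵥ w t.1 t.2) := by
      have h2 : ∀ t : m × m, (fun k => Y t.1 * V t.2 * y t.1 t.2 k) ⬝ᵥ
          (cp C ξ 0 L *ᵥ w t.1 t.2) = Y t.1 * V t.2 * W ξ t.1 t.2 := by
        intro t
        rw [hyw]
        simp only [dotProduct, Finset.mul_sum]
        refine Finset.sum_congr rfl fun k _ => by ring
      simp only [h2]
      rw [Fintype.sum_prod_type]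
      simp only [dotProduct, Matrix.mulVec, Finset.mul_sum]
      refine Finset.sum_congr rfl fun a _ => Finset.sum_congr rfl fun b _ => by ring
    rw [h1, dot_block]
    have h3 : (cp D ξ 0 L).submatrix φ.symm φ.symm *ᵥ
        (fun q => w (φ.symm q).2.1 (φ.symm q).2.2 (φ.symm q).1) =
        fun q => (cp D ξ 0 L *ᵥ fun t : ν × (m × m) => w t.2.1 t.2.2 t.1) (φ.symm q) := by
      funext q
      simp only [Matrix.mulVec, dotProduct, Matrix.submatrix_apply]
      exact (Equiv.sum_comp φ.symm (fun t : ν × (m × m) =>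
        cp D ξ 0 L (φ.symm q) t * w t.2.1 t.2.2 t.1))
    rw [h3]
    have h4 : cp D ξ 0 L = blockDiagonal fun _ : m × m => cp C ξ 0 L := cp_blk _ _ _ _
    rw [h4]
    simp only [dotProduct]
    exact (Equiv.sum_comp φ.symm (fun t : ν × (m × m) => Y t.2.1 * V t.2.2 * y t.2.1 t.2.2 t.1 *
      ((blockDiagonal fun _ : m × m => cp C ξ 0 L) *ᵥ fun t : ν × (m × m) => w t.2.1 t.2.2 t.1)
        t)).symm

end Node

/-- sizes -/
def Cd (w : ℕ) : ℕ → ℕ
  | 0 => w
  | κ + 1 => Cd w κ * Cd w κ * w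

/-- **Regular windows are functionals of one chain.** -/
theorem rep {M : ℕ → F → Matrix m m F} {v e : ℕ → ℕ} {L : ℕ} {z : ℕ → F}
    {pt : (ℕ → F) → ℕ → F}
    (hM : ∀ l, ∀ a b, ∃ p : Polynomial F, ∀ t, p.eval t = M l t a b) (hL : 0 < L)
    (hpt1 : ∀ ξ, ∀ l < L, pt ξ (e l) = ξ l)
    (hpt2 : ∀ ξ u, (∀ l < L, e l ≠ u) → pt ξ u = z u) {J : Finset ℕ} (heJ : ∀ l < L, e l ∈ J)
    (hemono : ∀ l l', l < l' → l' < L → e l < e l') {a : ℕ → F} {κ i j : ℕ}
    (hreg : Reg v J κ i j)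
    (hrank : ∀ p q, i ≤ p → p < q → q ≤ j → ∀ x : ℕ → F,
      (cp M (fun r => x (v r)) p q).rank ≤ (cp M (fun r => pt a (v r)) p q).rank) :
    i ≤ j ∧ Rp L a (Cd (Fintype.card m) κ) (fun ξ => cp M (fun r => pt ξ (v r)) i j) := by
  induction hreg with
  | @inc i j h hI =>
    obtain ⟨c, h1, h2, h3, h4⟩ := exists_cuts_inc (v := v) (e := e) h hL
      (fun l l' hll hl' => hI (e l) (heJ l (by omega)) (e l') (heJ l' hl') (hemono l l' hll hl'))
    exact ⟨h, rp_inc hM hpt1 hpt2 c h1 h2 h3 h4 hrank⟩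
  | @dec i j h hI =>
    obtain ⟨c, h1, h2, h3, h4⟩ := exists_cuts_dec (v := v) (e := e) h hL
      (fun l l' hll hl' => hI (e l) (heJ l (by omega)) (e l') (heJ l' hl') (hemono l l' hll hl'))
    exact ⟨h, rp_dec hM hpt1 hpt2 c h1 h2 h3 h4 hrank⟩
  | @node κ i p j r1 r2 ih1 ih2 =>
    have hle1 : i ≤ p := r1.le
    have hle2 : p ≤ j := r2.le
    obtain ⟨_, g1⟩ := ih1 (fun p' q' h1 h2 h3 => hrank p' q' h1 h2 (h3.trans hle2))
    obtain ⟨_, g2⟩ := ih2 (fun p' q' h1 h2 h3 => hrank p' q' (hle1.trans h1) h2 h3)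
    refine ⟨hle1.trans hle2, ?_⟩
    have h5 := g1.mul g2
    have h6 : (fun ξ => cp M (fun r => pt ξ (v r)) i j) =
        fun ξ => cp M (fun r => pt ξ (v r)) i p * cp M (fun r => pt ξ (v r)) p j := by
      funext ξ
      rw [cp_mul _ hle1 hle2]
    rw [h6]
    exact h5

end Pool.Agent.W2helper21.RK
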