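import Pool.Agent.W2helper21.FRO.Prog

/-!
# Regular subsets of the variables of a read-`κ` sequence
-/

namespace Pool.Agent.W2helper21.RK

open Pool.Agent.W2helper21.FRO (es_sq)

/-- the variables of `J` are read in increasing order in the window `[i, j)` -/
def Inc (v : ℕ → ℕ) (i j : ℕ) (J : Finset ℕ) : Prop :=
  ∀ u ∈ J, ∀ u' ∈ J, u < u' → ∀ q q', i ≤ q → q < j → i ≤ q' → q' < j → v q = u → v q' = u' →
    q < q'

/-- the variables of `J` are read in decreasing order in the window `[i, j)` -/
def Dec (v : ℕ → ℕ) (i j : ℕ) (J : Finset ℕ) : Prop :=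
  ∀ u ∈ J, ∀ u' ∈ J, u < u' → ∀ q q', i ≤ q → q < j → i ≤ q' → q' < j → v q = u → v q' = u' →
    q' < q

/-- the window `[i, j)` is divided into `2 ^ κ` windows in which the variables of `J` are read in
monotone order -/
inductive Reg (v : ℕ → ℕ) (J : Finset ℕ) : ℕ → ℕ → ℕ → Prop
  | inc {i j : ℕ} (h : i ≤ j) (hI : Inc v i j J) : Reg v J 0 i j
  | dec {i j : ℕ} (h : i ≤ j) (hI : Dec v i j J) : Reg v J 0 i j
  | node {κ i p j : ℕ} (h1 : Reg v J κ i p) (h2 : Reg v J κ p j) : Reg v J (κ + 1) i j

theorem Inc.mono {v : ℕ → ℕ} {i j : ℕ} {J J' : Finset ℕ} (h : Inc v i j J) (hJ : J' ⊆ J) :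
    Inc v i j J' := fun u hu u' hu' => h u (hJ hu) u' (hJ hu')

theorem Dec.mono {v : ℕ → ℕ} {i j : ℕ} {J J' : Finset ℕ} (h : Dec v i j J) (hJ : J' ⊆ J) :
    Dec v i j J' := fun u hu u' hu' => h u (hJ hu) u' (hJ hu')

theorem Reg.mono {v : ℕ → ℕ} {J J' : Finset ℕ} {κ i j : ℕ} (h : Reg v J κ i j) (hJ : J' ⊆ J) :
    Reg v J' κ i j := by
  induction h with
  | inc h hI => exact Reg.inc h (hI.mono hJ)
  | dec h hI => exact Reg.dec h (hI.mono hJ)
  | node _ _ h3 h4 => exact Reg.node h3 h4

theorem Reg.le {v : ℕ → ℕ} {J : Finset ℕ} {κ i j : ℕ} (h : Reg v J κ i j) : i ≤ j := by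
  induction h with
  | inc h _ => exact h
  | dec h _ => exact h
  | node _ _ h3 h4 => exact h3.trans h4

theorem reg_empty (v : ℕ → ℕ) (J : Finset ℕ) : ∀ κ j, Reg v J κ j j := by
  intro κ
  induction κ with
  | zero =>
    intro j
    exact Reg.inc le_rfl (fun u _ u' _ _ q q' h1 h2 => by omega)
  | succ κ ih => exact fun j => Reg.node (ih j) (ih j)

theorem Reg.lift {v : ℕ → ℕ} {J : Finset ℕ} {i j : ℕ} (h : Reg v J 0 i j) :
    ∀ κ, Reg v J κ i j := by
  intro κ
  induction κ with
  | zero => exact h
  | succ κ ih => exact Reg.node ih (reg_empty v J κ j)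

/-- the reads of `u` in `[i, j)` -/
def rd (v : ℕ → ℕ) (i j u : ℕ) : Finset ℕ := (Finset.Ico i j).filter fun q => v q = u

theorem mem_rd {v : ℕ → ℕ} {i j u q : ℕ} : q ∈ rd v i j u ↔ (i ≤ q ∧ q < j) ∧ v q = u := by
  unfold rd
  rw [Finset.mem_filter, Finset.mem_Ico]

/-- the size needed for regular subsets -/
def Bk : ℕ → ℕ → ℕ
  | 0, s => s + 1
  | κ + 1, s => s * s * Bk κ (Bk κ s) + 1

theorem Bk_pos (κ s : ℕ) : 0 < Bk κ s := by
  cases κ <;> simp [Bk]

/-- monotone subsets of a list of separated variables -/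
theorem of_list {v : ℕ → ℕ} {i j s : ℕ} (hij : i ≤ j) {l : List ℕ} (hl : l.length = s * s)
    (hnd : l.Nodup)
    (hp : l.Pairwise fun u u' => ∀ q q', i ≤ q → q < j → i ≤ q' → q' < j → v q = u → v q' = u' →
      q < q') : ∃ J : Finset ℕ, (∀ u ∈ J, u ∈ l) ∧ J.card = s ∧ ∀ κ, Reg v J κ i j := by
  classical
  let T : Finset ℕ := l.toFinset
  have hT : ∀ u, u ∈ T ↔ u ∈ l := fun u => List.mem_toFinset
  let pos : ℕ → ℕ := fun u => if u ∈ l then 2 * l.idxOf u else 2 * u + 1
  have hpos : Function.Injective pos := by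
    intro u u' h
    simp only [pos] at h
    by_cases hu : u ∈ l
    · by_cases hu' : u' ∈ l
      · rw [if_pos hu, if_pos hu'] at h
        have h1 : l.idxOf u = l.idxOf u' := by omega
        exact (List.idxOf_inj hu).mp h1
      · rw [if_pos hu, if_neg hu'] at h
        omega
    · by_cases hu' : u' ∈ l
      · rw [if_neg hu, if_pos hu'] at h
        omega
      · rw [if_neg hu, if_neg hu'] at h
        omega
  have hcard : s * s ≤ T.card := by
    rw [List.toFinset_card_of_nodup hnd, hl]
  have hbef : ∀ u ∈ l, ∀ u' ∈ l, pos u < pos u' → ∀ q q', i ≤ q → q < j → i ≤ q' → q' < j →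
      v q = u → v q' = u' → q < q' := by
    intro u hu u' hu' h
    simp only [pos] at h
    rw [if_pos hu, if_pos hu'] at h
    have h1 : l.idxOf u < l.idxOf u' := by omega
    have h2 := List.idxOf_lt_length_iff.mpr hu
    have h3 := List.idxOf_lt_length_iff.mpr hu'
    have h4 := List.pairwise_iff_getElem.mp hp _ _ h2 h3 h1
    rw [List.getElem_idxOf h2, List.getElem_idxOf h3] at h4
    exact h4
  obtain ⟨J, hJT, hJc, hJ⟩ := es_sq pos hpos hcard
  refine ⟨J, fun u hu => (hT u).mp (hJT hu), hJc, ?_⟩
  rcases hJ with h | h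
  · apply Reg.lift
    apply Reg.inc hij
    intro u hu u' hu' huu
    exact hbef u ((hT u).mp (hJT hu)) u' ((hT u').mp (hJT hu')) (h hu hu' huu)
  · apply Reg.lift
    apply Reg.dec hij
    intro u hu u' hu' huu q q' h1 h2 h3 h4 h5 h6
    exact hbef u' ((hT u').mp (hJT hu')) u ((hT u).mp (hJT hu)) (h hu hu' huu) q' q h3 h4 h1 h2
      h6 h5

/-- **Regular subsets**: if every variable of `S` is read at most `κ` times in the window and `S`
is large then `S` has a subset of given size for which the window is regular. -/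
theorem struct (v : ℕ → ℕ) : ∀ κ s i j : ℕ, i ≤ j → ∀ S : Finset ℕ,
    (∀ u ∈ S, (rd v i j u).card ≤ κ) → Bk κ s ≤ S.card →
    ∃ J ⊆ S, J.card = s ∧ Reg v J κ i j := by
  classical
  intro κ
  induction κ with
  | zero =>
    intro s i j hij S hS hc
    obtain ⟨J, hJ, hJc⟩ := Finset.exists_subset_card_eq
      (show s ≤ S.card from (Nat.le_succ s).trans hc)
    refine ⟨J, hJ, hJc, Reg.inc hij ?_⟩
    intro u hu u' _ _ q q' h1 h2 _ _ h5
    have h6 := hS u (hJ hu)
    have h7 : q ∈ rd v i j u := mem_rd.mpr ⟨⟨h1, h2⟩, h5⟩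
    have h8 : 0 < (rd v i j u).card := Finset.card_pos.mpr ⟨q, h7⟩
    omega
  | succ κ ih =>
    intro s i j hij S hS hc
    set B' := Bk κ (Bk κ s) with hB'
    have hB'pos : 0 < B' := Bk_pos _ _
    let last : ℕ → ℕ := fun u => (rd v i j u).sup fun q => q + 1
    have hlast_le : ∀ u, last u ≤ j := by
      intro u
      apply Finset.sup_le
      intro q hq
      exact (mem_rd.mp hq).1.2
    have hlast_ge : ∀ u q, q ∈ rd v i j u → q + 1 ≤ last u := fun u q hq =>
      Finset.le_sup (f := fun q => q + 1) hq
    have hlast_att : ∀ u, (rd v i j u).Nonempty → ∃ q ∈ rd v i j u, q + 1 = last u := by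
      intro u hne
      obtain ⟨q, hq, h⟩ := Finset.exists_mem_eq_sup _ hne fun q => q + 1
      exact ⟨q, hq, h.symm⟩
    have greedy : ∀ r : ℕ, ∀ i' : ℕ, i ≤ i' → i' ≤ j → ∀ S' : Finset ℕ, S' ⊆ S →
        (∀ u ∈ S', ∀ q, i ≤ q → q < i' → v q ≠ u) → r * B' ≤ S'.card →
        (∃ J ⊆ S, J.card = s ∧ Reg v J (κ + 1) i j) ∨
        ∃ l : List ℕ, l.length = r ∧ l.Nodup ∧ (∀ u ∈ l, u ∈ S') ∧
          l.Pairwise fun u u' => ∀ q q', i ≤ q → q < j → i ≤ q' → q' < j → v q = u → v q' = u' →
            q < q' := by
      intro r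
      induction r with
      | zero =>
        intro i' _ _ S' _ _ _
        exact Or.inr ⟨[], rfl, List.nodup_nil, by simp, List.Pairwise.nil⟩
      | succ r ihr =>
        intro i' hii hij' S' hS' hno hcard
        have hne : S'.Nonempty := by
          apply Finset.card_pos.mp
          have : 0 < (r + 1) * B' := Nat.mul_pos (Nat.succ_pos r) hB'pos
          omega
        obtain ⟨u1, hu1, hmin⟩ := Finset.exists_min_image S' last hne
        set p := max i' (last u1) with hp
        have hpj : p ≤ j := max_le hij' (hlast_le u1)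
        have hip : i ≤ p := hii.trans (le_max_left _ _)
        let St : Finset ℕ := S'.filter fun u => u ≠ u1 ∧ ∃ q, i ≤ q ∧ q < p ∧ v q = u
        by_cases hSt : B' ≤ St.card
        · left
          have hboth : ∀ u ∈ St, (rd v i p u).card ≤ κ ∧ (rd v p j u).card ≤ κ := by
            intro u hu
            rw [Finset.mem_filter] at hu
            obtain ⟨huS, hne1, q, hq1, hq2, hq3⟩ := hu
            have hqi : i' ≤ q := by
              by_contra hcon
              exact hno u huS q hq1 (by omega) hq3
            have hpl : p = last u1 := by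
              rcases max_choice i' (last u1) with h | h
              · rw [← hp] at h
                omega
              · exact h
            have hrd : q ∈ rd v i j u := mem_rd.mpr ⟨⟨hq1, by omega⟩, hq3⟩
            obtain ⟨q0, hq0, hq0l⟩ := hlast_att u ⟨q, hrd⟩
            have h1 := hmin u huS
            have hne2 : (rd v i j u1).Nonempty := by
              by_contra hcon
              rw [Finset.not_nonempty_iff_eq_empty] at hcon
              have h2 : last u1 = 0 := by
                simp only [last, hcon, Finset.sup_empty]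
                rfl
              omega
            obtain ⟨q1, hq1', hq1l⟩ := hlast_att u1 hne2
            have hq0p : p ≤ q0 := by
              by_contra hcon
              have h3 : q0 = q1 := by omega
              apply hne1
              rw [← (mem_rd.mp hq0).2, h3, (mem_rd.mp hq1').2]
            have hsum : (rd v i p u).card + (rd v p j u).card = (rd v i j u).card := by
              rw [← Finset.card_union_of_disjoint]
              · congr 1
                ext x
                rw [Finset.mem_union, mem_rd, mem_rd, mem_rd]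
                constructor
                · rintro (h | h)
                  · exact ⟨⟨h.1.1, by omega⟩, h.2⟩
                  · exact ⟨⟨by omega, h.1.2⟩, h.2⟩
                · rintro h
                  by_cases hx : x < p
                  · exact Or.inl ⟨⟨h.1.1, hx⟩, h.2⟩
                  · exact Or.inr ⟨⟨by omega, h.1.2⟩, h.2⟩
              · rw [Finset.disjoint_left]
                intro x hx hx'
                have h2 := (mem_rd.mp hx).1.2
                have h3 := (mem_rd.mp hx').1.1
                omega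
            have h4 : 0 < (rd v i p u).card :=
              Finset.card_pos.mpr ⟨q, mem_rd.mpr ⟨⟨hq1, hq2⟩, hq3⟩⟩
            have h5 : 0 < (rd v p j u).card :=
              Finset.card_pos.mpr ⟨q0, mem_rd.mpr ⟨⟨hq0p, (mem_rd.mp hq0).1.2⟩,
                (mem_rd.mp hq0).2⟩⟩
            have h6 := hS u (hS' huS)
            omega
          obtain ⟨J', hJ', hJ'c, hJ'r⟩ := ih (Bk κ s) i p hip St (fun u hu => (hboth u hu).1) hSt
          obtain ⟨J, hJ, hJc, hJr⟩ := ih s p j hpj J' (fun u hu => (hboth u (hJ' hu)).2) hJ'c.ge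
          exact ⟨J, (hJ.trans hJ').trans ((Finset.filter_subset _ _).trans hS'), hJc,
            Reg.node (hJ'r.mono hJ) hJr⟩
        · let S'' : Finset ℕ := S'.filter fun u => u ≠ u1 ∧ ∀ q, i ≤ q → q < p → v q ≠ u
          have hS''sub : S'' ⊆ S' := Finset.filter_subset _ _
          have hcov : S' ⊆ insert u1 (St ∪ S'') := by
            intro u hu
            rw [Finset.mem_insert, Finset.mem_union, Finset.mem_filter, Finset.mem_filter]
            by_cases h1 : u = u1
            · exact Or.inl h1
            · right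
              by_cases h2 : ∃ q, i ≤ q ∧ q < p ∧ v q = u
              · exact Or.inl ⟨hu, h1, h2⟩
              · push Not at h2
                exact Or.inr ⟨hu, h1, h2⟩
          have hc1 := Finset.card_le_card hcov
          have hc2 := Finset.card_insert_le u1 (St ∪ S'')
          have hc3 := Finset.card_union_le St S''
          have hc4 : r * B' ≤ S''.card := by
            have : (r + 1) * B' = r * B' + B' := by ring
            omega
          rcases ihr p hip hpj S'' (hS''sub.trans hS')
            (fun u hu q h1 h2 => (Finset.mem_filter.mp hu).2.2 q h1 h2) hc4 with h | h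
          · exact Or.inl h
          · right
            obtain ⟨l, hll, hlnd, hlS, hlp⟩ := h
            refine ⟨u1 :: l, by simp [hll], ?_, ?_, ?_⟩
            · rw [List.nodup_cons]
              refine ⟨fun h => ?_, hlnd⟩
              exact (Finset.mem_filter.mp (hlS u1 h)).2.1 rfl
            · intro u hu
              rw [List.mem_cons] at hu
              rcases hu with rfl | hu
              · exact hu1
              · exact hS''sub (hlS u hu)
            · rw [List.pairwise_cons]
              refine ⟨fun u' hu' q q' h1 h2 h3 h4 h5 h6 => ?_, hlp⟩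
              have h7 : q + 1 ≤ last u1 := hlast_ge u1 q (mem_rd.mpr ⟨⟨h1, h2⟩, h5⟩)
              have h8 : last u1 ≤ p := le_max_right _ _
              by_contra hcon
              exact (Finset.mem_filter.mp (hlS u' hu')).2.2 q' h3 (by omega) h6
    have hbig : s * s * B' ≤ S.card := by
      have : Bk (κ + 1) s = s * s * B' + 1 := rfl
      omega
    rcases greedy (s * s) i le_rfl hij S (Finset.Subset.refl _)
      (fun u _ q h1 h2 => by omega) hbig with h | ⟨l, hl, hnd, hlS, hlp⟩
    · exact h
    · obtain ⟨J, hJ, hJc, hJr⟩ := of_list hij hl hnd hlp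
      exact ⟨J, fun u hu => hlS u (hJ u hu), hJc, hJr (κ + 1)⟩

/-- regular subsets for several windows -/
theorem struct_many {ι : Type*} [DecidableEq ι] (κ : ℕ) (v : ι → ℕ → ℕ) (i j : ι → ℕ)
    (hij : ∀ t, i t ≤ j t) : ∀ (A : Finset ι) (s : ℕ) (S : Finset ℕ),
    (∀ t ∈ A, ∀ u ∈ S, (rd (v t) (i t) (j t) u).card ≤ κ) → (Bk κ)^[A.card] s ≤ S.card →
    ∃ J ⊆ S, J.card = s ∧ ∀ t ∈ A, Reg (v t) J κ (i t) (j t) := by
  intro A
  induction A using Finset.induction_on with
  | empty =>
    intro s S _ hS
    rw [Finset.card_empty, Function.iterate_zero, id] at hS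
    obtain ⟨J, hJ, hJc⟩ := Finset.exists_subset_card_eq hS
    exact ⟨J, hJ, hJc, by simp⟩
  | insert t A ht ih =>
    intro s S hr hS
    rw [Finset.card_insert_of_notMem ht, Function.iterate_succ_apply] at hS
    obtain ⟨J', hJ', hJ'c, hJ'r⟩ := ih (Bk κ s) S
      (fun t' ht' => hr t' (Finset.mem_insert_of_mem ht')) hS
    obtain ⟨J, hJ, hJc, hJr⟩ := struct (v t) κ s (i t) (j t) (hij t) J'
      (fun u hu => hr t (Finset.mem_insert_self _ _) u (hJ' hu)) hJ'c.ge
    refine ⟨J, hJ.trans hJ', hJc, fun t' ht' => ?_⟩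
    rw [Finset.mem_insert] at ht'
    rcases ht' with rfl | ht'
    · exact hJr
    · exact (hJ'r t' ht').mono hJ

end Pool.Agent.W2helper21.RK
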